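import Pool.Agent.Work.MP_67388f_an.Cartan3

set_option autoImplicit false

namespace Pool.Agent.Results.MP_67388f_an.CartanTranslates

open Pool.Agent.Work.MP_67388f_an MeasureTheory Set Matrix

/-- Let `SL(n, ℝ) × H` act continuously on a locally compact second countable Hausdorff space `X`
(for instance `G / Γ` with `G ⊇ SL(n, ℝ) × H`). Let `A` be a subgroup of `SL(n, ℝ) × H` containing
`D × 1`, where `D` is the group of positive diagonal matrices of determinant one, and whose elements
have diagonal first component. Let `μ` be an `A`-invariant and `A`-ergodic probability measure, `ν` a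
`D`-invariant probability measure, and `g = (g₁, h)` with `g₁` not monomial. If the translate `g μ` is
not singular to `ν`, then `μ` is invariant under some unipotent root group `{(1 + x E_ij, 1)}`. -/
theorem result {n : ℕ} {H : Type*} [Group H] [TopologicalSpace H] [IsTopologicalGroup H]
    {X : Type*} [TopologicalSpace X] [LocallyCompactSpace X] [T2Space X]
    [SecondCountableTopology X] [MeasurableSpace X] [BorelSpace X]
    [MulAction (SpecialLinearGroup (Fin n) ℝ × H) X]
    [ContinuousSMul (SpecialLinearGroup (Fin n) ℝ × H) X]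
    (A : Subgroup (SpecialLinearGroup (Fin n) ℝ × H))
    (hAdiag : ∀ a ∈ A, ∀ i j, i ≠ j → a.1 i j = 0)
    (hAD : ∀ d : SpecialLinearGroup (Fin n) ℝ, IsPosDiag d → (d, (1 : H)) ∈ A)
    (μ ν : Measure X) [IsProbabilityMeasure μ] [IsProbabilityMeasure ν]
    (hμ : ∀ a ∈ A, μ.map (fun z => a • z) = μ)
    (herg : ∀ s : Set X, MeasurableSet s → (∀ a ∈ A, (fun z => a • z) ⁻¹' s =ᵐ[μ] s) →
      μ s = 0 ∨ μ sᶜ = 0)
    (hν : ∀ d : SpecialLinearGroup (Fin n) ℝ, IsPosDiag d → ν.map (fun z => (d, (1 : H)) • z) = ν)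
    (g : SpecialLinearGroup (Fin n) ℝ × H) (hg : ¬ IsMonomial g.1)
    (hns : ¬ (μ.map (fun z => g • z)) ⟂ₘ ν) :
    ∃ (i j : Fin n) (hij : i ≠ j), ∀ x : ℝ,
      μ.map (fun z => (SpecialLinearGroup.transvection hij x, (1 : H)) • z) = μ := by
  by_contra hcon
  push Not at hcon
  exact hns (cartan_main A hAdiag hAD μ ν hμ herg hν hcon g hg)

end Pool.Agent.Results.MP_67388f_an.CartanTranslates
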