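import Pool.Agent.Work.MP_67388f_an.Complexity

set_option autoImplicit false

namespace Pool.Agent.Results.MP_67388f_an.ComplexityGap

open Pool.Agent.Work.MP_67388f_an MeasureTheory Set Filter

/-- Let `M_0, …, M_{k-1}` be integer `d × d` matrices such that any two distinct monomials in them
differ by a nonsingular matrix. For every `m > 0` there is `c > 0` such that: if a probability
measure `μ` on the torus `(ℝ / ℤ)^d` is invariant under all `M_i`, and a Borel set `E` with
`μ(E) ≥ m` can be covered, for all large `t`, by at most `c t^k` balls of radius `2^{-t}`, then `μ`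
has an atom at a torsion point of `E`; and if `μ` is moreover ergodic then it is supported on a finite
set of torsion points. -/
theorem result (d k : ℕ) (M : Fin k → Matrix (Fin d) (Fin d) ℤ)
    (hM : ∀ n n' : Fin k → ℕ, n ≠ n' → (monomialAt M n - monomialAt M n').det ≠ 0)
    (m : ℝ) (hm : 0 < m) :
    ∃ c : ℝ, 0 < c ∧ ∀ (μ : Measure (Fin d → UnitAddCircle)) [IsProbabilityMeasure μ],
      (∀ i, MeasurePreserving (torusMap (M i)) μ μ) →
      ∀ E : Set (Fin d → UnitAddCircle), MeasurableSet E → m ≤ μ.real E →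
      (∀ᶠ t : ℕ in atTop, ∃ F : Finset (Fin d → UnitAddCircle), (F.card : ℝ) ≤ c * (t : ℝ) ^ k ∧
        E ⊆ ⋃ y ∈ F, Metric.ball y ((1 / 2 : ℝ) ^ t)) →
      (∃ x ∈ E, IsOfFinAddOrder x ∧ 0 < μ {x}) ∧
      ((∀ s : Set (Fin d → UnitAddCircle), MeasurableSet s →
        (∀ i, (torusMap (M i)) ⁻¹' s =ᵐ[μ] s) → μ s = 0 ∨ μ sᶜ = 0) →
        ∃ q : ℕ, 0 < q ∧ μ {x | q • x = 0}ᶜ = 0) :=
  complexity_main d k M hM m hm

end Pool.Agent.Results.MP_67388f_an.ComplexityGap
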