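import Pool.Agent.Work.MP_67388f_an.TV.ZO

set_option autoImplicit false

namespace Pool.Agent.Results.MP_67388f_an.EqualOrSingular

open Pool.Agent.Work.MP_67388f_an MeasureTheory Filter Topology Matrix

/-- A subgroup `A` of `L ≤ SL(n, ℝ)` that is conjugate in `SL(n, ℝ)` to a group of diagonal matrices
and is generated by the continuous one-parameter subgroups of `L` contained in it. -/
def IsConnDiag {n : ℕ} {L : Subgroup (SpecialLinearGroup (Fin n) ℝ)} (A : Subgroup L) : Prop :=
  (∃ x : SpecialLinearGroup (Fin n) ℝ, ∀ a ∈ A, ∀ i k, i ≠ k →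
    (x * (a : SpecialLinearGroup (Fin n) ℝ) * x⁻¹) i k = 0) ∧
  A ≤ Subgroup.closure {g | ∃ b : ℝ → L, Continuous b ∧ (∀ s t, b (s + t) = b s * b t) ∧
    (∀ t, b t ∈ A) ∧ ∃ t, b t = g}

/-- `μ` is invariant and ergodic under the group `A`. -/
def IsErg {L X : Type*} [Group L] [MeasurableSpace X] [MulAction L X] (A : Subgroup L)
    (μ : Measure X) : Prop :=
  (∀ a ∈ A, μ.map (fun z => a • z) = μ) ∧
  ∀ s : Set X, MeasurableSet s → (∀ a ∈ A, (fun z => a • z) ⁻¹' s =ᵐ[μ] s) →
    μ s = 0 ∨ μ sᶜ = 0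

/-- Let a closed subgroup `L` of `SL(n, ℝ)` act continuously on a locally compact second countable
Hausdorff space `X`, and let `A`, `B` be two connected `ℝ`-diagonalizable subgroups of `L`. An
ergodic probability measure of `A` and an ergodic probability measure of `B` are equal or mutually
singular. -/
theorem result {n : ℕ} (L : Subgroup (SpecialLinearGroup (Fin n) ℝ))
    (hL : IsClosed (L : Set (SpecialLinearGroup (Fin n) ℝ)))
    {X : Type*} [TopologicalSpace X] [LocallyCompactSpace X] [T2Space X]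
    [SecondCountableTopology X] [MeasurableSpace X] [BorelSpace X]
    [MulAction L X] [ContinuousSMul L X]
    (A B : Subgroup L) (hA : IsConnDiag A) (hB : IsConnDiag B)
    (μ ν : Measure X) [IsProbabilityMeasure μ] [IsProbabilityMeasure ν]
    (hμ : IsErg A μ) (hν : IsErg B ν) :
    μ = ν ∨ μ ⟂ₘ ν := by
  obtain ⟨⟨x, hx⟩, hgA⟩ := hA
  obtain ⟨⟨y, hy⟩, hgB⟩ := hB
  have gen : ∀ C : Subgroup L, C ≤ Subgroup.closure {g | ∃ b : ℝ → L, Continuous b ∧
      (∀ s t, b (s + t) = b s * b t) ∧ (∀ t, b t ∈ C) ∧ ∃ t, b t = g} → GenOne C := by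
    intro C hC S hS
    refine hC.trans ((Subgroup.closure_le S).2 ?_)
    rintro g ⟨b, h1, h2, h3, t, rfl⟩
    exact hS b h1 h2 h3 t
  exact equal_or_singular (X := X) L.subtype (MonoidHom.id L) (MonoidHom.id L)
    (hL.isClosedEmbedding_subtypeVal) continuous_id (fun g u => rfl) (fun u => rfl)
    A B (gen A hgA) (gen B hgB) x y hx hy μ ν hμ.1 hν.1 hμ.2 hν.2

end Pool.Agent.Results.MP_67388f_an.EqualOrSingular
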