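import Pool.Agent.Work.MP_67388f_an.TS.Fin

set_option autoImplicit false

namespace Pool.Agent.Results.MP_67388f_an.FiniteIndex

open Pool.Agent.Work.MP_67388f_an MeasureTheory Filter Topology Matrix

/-- A subgroup `A` of `L ≤ SL(n, ℝ)` that is conjugate in `SL(n, ℝ)` to a group of diagonal matrices
and is generated by the continuous one-parameter subgroups of `L` contained in it. -/
def IsConnDiag {n : ℕ} {L : Subgroup (SpecialLinearGroup (Fin n) ℝ)} (A : Subgroup L) : Prop :=
  (∃ x : SpecialLinearGroup (Fin n) ℝ, ∀ a ∈ A, ∀ i k, i ≠ k →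
    (x * (a : SpecialLinearGroup (Fin n) ℝ) * x⁻¹) i k = 0) ∧
  A ≤ Subgroup.closure {g | ∃ b : ℝ → L, Continuous b ∧ (∀ s t, b (s + t) = b s * b t) ∧
    (∀ t, b t ∈ A) ∧ ∃ t, b t = g}

/-- `μ` is invariant under the group `B`. -/
def IsInv {G X : Type*} [Group G] [MeasurableSpace X] [MulAction G X] (B : Subgroup G)
    (μ : Measure X) : Prop :=
  ∀ b ∈ B, μ.map (fun z => b • z) = μ

/-- `μ` is ergodic for the group `B`: Borel sets that are invariant up to null sets are null or
conull. -/
def IsErgodicFor {G X : Type*} [Group G] [MeasurableSpace X] [MulAction G X] (B : Subgroup G)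
    (μ : Measure X) : Prop :=
  ∀ s : Set X, MeasurableSet s → (∀ b ∈ B, (fun z => b • z) ⁻¹' s =ᵐ[μ] s) →
    μ s = 0 ∨ μ sᶜ = 0

/-- Let `L` be a closed subgroup of `SL(n, ℝ)`, `H` any topological group, `L × H` acting
continuously on a locally compact second countable Hausdorff space `X`, `A ≤ L` a connected
`ℝ`-diagonalizable subgroup and `μ` an `A`-invariant `A`-ergodic probability measure. Let `B` be an
arbitrary subgroup of `L × H` and `ν` a `B`-invariant finite measure which is not singular to `μ`.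
Then `μ` is invariant under a subgroup of finite index of `B`. -/
theorem result {n : ℕ} (L : Subgroup (SpecialLinearGroup (Fin n) ℝ))
    (hL : IsClosed (L : Set (SpecialLinearGroup (Fin n) ℝ)))
    {H : Type*} [Group H] [TopologicalSpace H] [IsTopologicalGroup H]
    {X : Type*} [TopologicalSpace X] [LocallyCompactSpace X] [T2Space X]
    [SecondCountableTopology X] [MeasurableSpace X] [BorelSpace X]
    [MulAction (L × H) X] [ContinuousSMul (L × H) X]
    (A : Subgroup L) (hA : IsConnDiag A) (μ : Measure X) [IsProbabilityMeasure μ]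
    (hμ : IsInv (A.map (MonoidHom.inl L H)) μ) (herg : IsErgodicFor (A.map (MonoidHom.inl L H)) μ)
    (B : Subgroup (L × H)) (ν : Measure X) [IsFiniteMeasure ν] (hν : IsInv B ν)
    (hns : ¬ μ ⟂ₘ ν) :
    ∃ B₀ : Subgroup (L × H), B₀ ≤ B ∧ (B₀.subgroupOf B).FiniteIndex ∧ IsInv B₀ μ := by
  obtain ⟨⟨x, hx⟩, hgA⟩ := hA
  have hgen : GenOne A := by
    intro S hS
    refine hgA.trans ((Subgroup.closure_le S).2 ?_)
    rintro g ⟨b, h1, h2, h3, t, rfl⟩
    exact hS b h1 h2 h3 t
  let κ : L →* SpecialLinearGroup (Fin n) ℝ := (MulAut.conj x).toMonoidHom.comp L.subtype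
  have hκ : IsClosedEmbedding κ :=
    ((Homeomorph.mulLeft x).trans (Homeomorph.mulRight x⁻¹)).isClosedEmbedding.comp
      hL.isClosedEmbedding_subtypeVal
  have hj : Continuous (MonoidHom.inl L H) := continuous_id.prodMk continuous_const
  have hjp : ∀ (g : L × H) (u : L), g * (MonoidHom.inl L H) u * g⁻¹ =
      (MonoidHom.inl L H) ((MonoidHom.fst L H) g * u * ((MonoidHom.fst L H) g)⁻¹) := by
    intro g u
    apply Prod.ext
    · rfl
    · show g.2 * 1 * g.2⁻¹ = 1
      rw [mul_one, mul_inv_cancel]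
  have hcls : ClassA (κ.comp (MonoidHom.fst L H)) (A.map (MonoidHom.inl L H)) := by
    refine classA_of_gen _ _ (genOne_map (MonoidHom.inl L H) hj A hgen) ?_
    rintro _ ⟨a, ha, rfl⟩ i k hik
    exact hx a ha i k hik
  have hzo : ∀ g : L × H, μ.map (fun z => g • z) = μ ∨ (μ.map (fun z => g • z)) ⟂ₘ μ := by
    intro g
    refine zero_one_law κ (MonoidHom.inl L H) (MonoidHom.fst L H) hκ hj hjp continuous_fst
      (fun u => rfl) (A.map (MonoidHom.inl L H)) hcls (genOne_map (MonoidHom.inl L H) hj A hgen)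
      μ hμ herg g ?_
    rintro _ ⟨a, ha, rfl⟩
    refine ⟨a⁻¹ * g.1⁻¹ * a * g.1, ?_⟩
    apply Prod.ext
    · rfl
    · show (1 : H) = 1⁻¹ * g.2⁻¹ * 1 * g.2
      rw [inv_one, one_mul, mul_one, inv_mul_cancel]
  have hfin := finite_index_of_zero_one μ B (fun b _ => hzo b) ν hν hns
  refine ⟨stb (G := L × H) μ ⊓ B, inf_le_right, ?_, fun b hb => hb.1⟩
  rw [Subgroup.inf_subgroupOf_right]
  exact hfin

end Pool.Agent.Results.MP_67388f_an.FiniteIndex
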