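import Pool.Agent.Work.MP_67388f_an.HZ.HaarCount

set_option autoImplicit false

namespace Pool.Agent.Results.MP_67388f_an.HaarOrSingular

open MeasureTheory Filter Topology Matrix
open Pool.Agent.Work.MP_67388f_an

/-- Haar dichotomy. Let `SL(n, ℝ) × H` act continuously and transitively on `X` with an invariant
probability measure `m` (a finite volume homogeneous space), such that all `SL(n, ℝ)`-orbits are
dense (irreducibility). Let `A` be a subgroup of `SL(n, ℝ) × H` with diagonal first components,
containing the positive diagonal group of `SL(n, ℝ)`, and `μ ≠ m` an `A`-invariant `A`-ergodic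
probability measure. Let `b s = exp (s Y)` be a one-parameter group of `SL(n, ℝ)` such that, for
some proper nonempty set `I` of indices, every index outside `I` can be reached from every index in
`I` through nonzero entries of `Y`. Then for every finite measure `ν` only countably many of the
translates of `μ` by the elements `b s` are not singular to `ν`. -/
theorem result {n : ℕ} {H : Type*} [Group H] [TopologicalSpace H] [IsTopologicalGroup H]
    [LocallyCompactSpace H] [SecondCountableTopology H] [T2Space H]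
    {X : Type*} [TopologicalSpace X] [LocallyCompactSpace X] [T2Space X]
    [SecondCountableTopology X] [MeasurableSpace X] [BorelSpace X]
    [MulAction (SpecialLinearGroup (Fin n) ℝ × H) X]
    [ContinuousSMul (SpecialLinearGroup (Fin n) ℝ × H) X]
    (htrans : ∀ x y : X, ∃ g : SpecialLinearGroup (Fin n) ℝ × H, g • x = y)
    (hdense : ∀ x : X, Dense {y : X | ∃ g : SpecialLinearGroup (Fin n) ℝ, (g, (1 : H)) • x = y})
    (m : Measure X) [IsProbabilityMeasure m]
    (hm : ∀ g : SpecialLinearGroup (Fin n) ℝ × H, m.map (fun z => g • z) = m)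
    (A : Subgroup (SpecialLinearGroup (Fin n) ℝ × H)) (hA : ∀ a ∈ A, ∀ i j, i ≠ j → a.1 i j = 0)
    (hAD : ∀ d : SpecialLinearGroup (Fin n) ℝ, IsPosDiag d → (d, (1 : H)) ∈ A)
    (μ : Measure X) [IsProbabilityMeasure μ]
    (hμ : ∀ a ∈ A, μ.map (fun z => a • z) = μ)
    (herg : ∀ s : Set X, MeasurableSet s → (∀ a ∈ A, (fun z => a • z) ⁻¹' s =ᵐ[μ] s) →
      μ s = 0 ∨ μ sᶜ = 0)
    (Y : Matrix (Fin n) (Fin n) ℝ) (b : ℝ → SpecialLinearGroup (Fin n) ℝ)
    (hb : ∀ s, (b s).1 = NormedSpace.exp (s • Y)) (I : Set (Fin n)) (hI : I.Nonempty)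
    (hI' : Iᶜ.Nonempty)
    (hreach : ∀ i ∈ I, ∀ j ∉ I, Relation.ReflTransGen (fun p q => Y p q ≠ 0) i j) :
    μ = m ∨ ∀ ν : Measure X, IsFiniteMeasure ν →
      {s : ℝ | ¬ (μ.map (fun z => (b s, (1 : H)) • z)) ⟂ₘ ν}.Countable :=
  haar_count htrans hdense m hm A hA hAD μ hμ herg Y b hb I hI hI' hreach

end Pool.Agent.Results.MP_67388f_an.HaarOrSingular
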