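import Pool.Agent.Work.MP_67388f_an.EM.Pl

/-!
# Mixing rates imply invariance under all of `∏ SL(n i, K i)`

`K i` is `ℝ` or `ℚ_[p]`; `GG n K` is the product of the groups `SL(n i, K i)`, `Lat n` the lattice of
integer vectors `k i j` with `∑ j, k i j = 0` for all `i`, `dg π k` the diagonal element with the
entries `π i ^ k i j` and `act H π k` its action on `X`.
-/

set_option autoImplicit false

namespace Pool.Agent.Results.MP_67388f_an.MixingInvariance

open MeasureTheory
open Pool.Agent.Work.MP_67388f_an.EM

/-- Let `K i` be `ℝ` or a field `ℚ_[p]` (`i` in a finite set), `G₁` the product of the groups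
`SL(n i, K i)`, of rank `r = ∑ (n i - 1)`, `H` a locally compact second countable group, and let
`G₁ × H` act continuously and transitively on a locally compact second countable Hausdorff space
`X`. Let `π i ∈ K i` have absolute value greater than one, and let `A ≤ G₁` be the group of the
elements `a_k` with the diagonal entries `π i ^ k i j`, where `k` runs through the integer vectors
with `∑ j, k i j = 0`. Let `μ` be an `A`-invariant Borel probability measure on `X`. If `r ≥ 2` and
`μ` is exponentially mixing for Lipschitz functions of compact support, or if `r ≥ 3` and the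
correlations of any two such functions are `O ((1 + |k|) ^ (-ρ))` for some `ρ > 1`, then `μ` is
`G₁`-invariant or a point mass. -/
theorem result {I : Type} [Fintype I] (n : I → ℕ) (K : I → Type)
    [∀ i, NontriviallyNormedField (K i)] (hK : ∀ i, IsPlace (K i))
    {H : Type} [Group H] [TopologicalSpace H] [IsTopologicalGroup H] [LocallyCompactSpace H]
    [SecondCountableTopology H] [T2Space H]
    {X : Type} [TopologicalSpace X] [LocallyCompactSpace X] [SecondCountableTopology X] [T2Space X]
    [MulAction (GG n K × H) X] [ContinuousSMul (GG n K × H) X]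
    [MulAction.IsPretransitive (GG n K × H) X] [MeasurableSpace X] [BorelSpace X]
    (π : ∀ i, (K i)ˣ) (hπ : ∀ i, 1 < ‖(π i : K i)‖)
    (μ : Measure X) [IsProbabilityMeasure μ] (hA : AInv n H π μ)
    (hmix : (2 ≤ ∑ i, (n i - 1) ∧ ExpMix n H π μ) ∨ (3 ≤ ∑ i, (n i - 1) ∧ PolyMix n H π μ)) :
    (∀ g : GG n K, μ.map (fun x => (g, (1 : H)) • x) = μ) ∨ ∃ x, μ = Measure.dirac x := by
  have : ∀ i, ProperSpace (K i) := fun i => (hK i).proper
  exact rigidity H hπ (fun i => (hK i).ni) (fun i => (hK i).sub) hA hmix

end Pool.Agent.Results.MP_67388f_an.MixingInvariance
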