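import Pool.Agent.Work.MP_67388f_an.MX.SMain

set_option autoImplicit false

namespace Pool.Agent.Work.MP_67388f_an.Retired.MixingRigidity

open MeasureTheory Filter Topology Matrix
open Pool.Agent.Work.MP_67388f_an

section places

variable {ι : Type*} (n₀ : ℕ) (n q : ι → ℕ) [∀ v, Fact (q v).Prime]

/-- The group `SL(n₀, ℝ) × ∏ SL(n v, ℚ_[q v])`. -/
def SLPlaces : Type _ :=
  SpecialLinearGroup (Fin n₀) ℝ × ((v : ι) → SpecialLinearGroup (Fin (n v)) ℚ_[q v])

/-- the product group structure -/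
noncomputable instance : Group (SLPlaces n₀ n q) := Prod.instGroup

/-- the product topology -/
noncomputable instance : TopologicalSpace (SLPlaces n₀ n q) := instTopologicalSpaceProd

variable {n₀ n q}

/-- the real component -/
def realPart (x : SLPlaces n₀ n q) : SpecialLinearGroup (Fin n₀) ℝ := x.1

/-- the component at the finite place `v` -/
def finPart (v : ι) (x : SLPlaces n₀ n q) : SpecialLinearGroup (Fin (n v)) ℚ_[q v] := x.2 v

end places

/-- Some nontrivial unipotent one-parameter group `exp (x Y)`, `x ∈ K`, is contained in `S`,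
normalized by `ρ a` for all `a ∈ A`, and expanded by `ρ a` for some `a ∈ A`. -/
def HasUnipotent {G : Type*} [Group G] {n : ℕ} {K : Type*} [NormedField K] [CharZero K]
    (A : Subgroup G) (ρ : G → SpecialLinearGroup (Fin n) K)
    (S : SpecialLinearGroup (Fin n) K → Prop) : Prop :=
  ∃ Y : Matrix (Fin n) (Fin n) K, Y ≠ 0 ∧ IsNilpotent Y ∧
    (∀ a ∈ A, ∃ c : K, (ρ a).1 * Y = c • (Y * (ρ a).1)) ∧
    (∃ a ∈ A, ∃ c : K, 1 < ‖c‖ ∧ (ρ a).1 * Y = c • (Y * (ρ a).1)) ∧
    ∀ x : K, ∃ u : SpecialLinearGroup (Fin n) K, u.1 = IsNilpotent.exp (x • Y) ∧ S u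

section places

variable {ι : Type*} {n₀ : ℕ} {n q : ι → ℕ} [∀ v, Fact (q v).Prime] {G : Type*} [Group G]

/-- At every place the components of the elements of `A` are diagonal of class `𝒜`. -/
def IsClassA (κ : G →* SLPlaces n₀ n q) (A : Subgroup G) : Prop :=
  DiagClassA A (fun a => realPart (κ a)) ∧ ∀ v, DiagClassA A (fun a => finPart v (κ a))

/-- At the real place or at some finite place there is a nontrivial one-parameter unipotent group
in `G` which preserves `μ` and is normalized by `A` and expanded by an element of `A`. -/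
def UnipotentInvariant {X : Type*} [MeasurableSpace X] [MulAction G X]
    (κ : G →* SLPlaces n₀ n q) (A : Subgroup G) (μ : Measure X) : Prop :=
  HasUnipotent A (fun a => realPart (κ a)) (fun u => ∃ t : G, realPart (κ t) = u ∧
    (∀ v, finPart v (κ t) = 1) ∧ μ.map (fun x => t • x) = μ) ∨
  ∃ v, HasUnipotent A (fun a => finPart v (κ a)) (fun u => ∃ t : G, finPart v (κ t) = u ∧
    realPart (κ t) = 1 ∧ (∀ v', v' ≠ v → finPart v' (κ t) = 1) ∧ μ.map (fun x => t • x) = μ)

/-- the element of `G` attached to the integer vector `m` -/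
def el {r : ℕ} (a : Multiplicative (Fin r → ℤ) →* G) (m : Fin r → ℤ) : G :=
  a (Multiplicative.ofAdd m)

end places

section mixing

variable {G X : Type*} [Group G] [TopologicalSpace X] [MeasurableSpace X] [MulAction G X] {r : ℕ}

/-- `f` mixes of order `d` with the exponent `ρ`: for sequences `s`, `t` of vectors of total
length at most `d`, the members of `s` at distances at least `g` from the members of `t`, the
products of the translates of `f` over `s` and over `t` are uncorrelated up to `C g ^ (-ρ)`.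
For `d = 2` this means `|∫ f (a m x) f (a m' x) - (∫ f) ^ 2| ≤ C ‖m - m'‖ ^ (-ρ)`. -/
def MixesWithRate (a : Multiplicative (Fin r → ℤ) →* G) (μ : Measure X) (d : ℕ) (ρ : ℝ)
    (f : X → ℝ) : Prop :=
  ∃ C : ℝ, ∀ (s t : List (Fin r → ℤ)) (g : ℝ), s.length + t.length ≤ d → 0 < g →
    (∀ m ∈ s, ∀ m' ∈ t, g ≤ ‖m - m'‖) →
    |∫ x, (s.map fun m => f (el a m • x)).prod * (t.map fun m => f (el a m • x)).prod ∂μ -
      (∫ x, (s.map fun m => f (el a m • x)).prod ∂μ) *
        ∫ x, (t.map fun m => f (el a m • x)).prod ∂μ| ≤ C * g ^ (-ρ)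

/-- Polynomial mixing of order `d` with exponents larger than one, for a dense set of compactly
supported continuous functions. -/
def PolynomiallyMixing (a : Multiplicative (Fin r → ℤ) →* G) (μ : Measure X) (d : ℕ) : Prop :=
  ∀ θ : C(X, ℝ), HasCompactSupport θ → ∀ ε : ℝ, 0 < ε →
    ∃ f : C(X, ℝ), HasCompactSupport f ∧ (∀ x, |θ x - f x| ≤ ε) ∧
      ∃ ρ : ℝ, 1 < ρ ∧ MixesWithRate a μ d ρ f

/-- Exponential mixing of order two: there is an algebra `T` of bounded continuous test functions
with a submultiplicative norm `nm`, invariant under translations, which increase the norm at most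
exponentially, such that the correlations decay exponentially, and such that the compactly supported
test functions are dense (for instance Lipschitz functions, if `a m` is Lipschitz with constant
`exp (L ‖m‖)`). -/
def ExponentiallyMixing (a : Multiplicative (Fin r → ℤ) →* G) (μ : Measure X) : Prop :=
  ∃ (T : Set C(X, ℝ)) (nm : C(X, ℝ) → ℝ) (K L c : ℝ), 0 < c ∧
    (∀ t : ℝ, ContinuousMap.const X t ∈ T ∧ nm (ContinuousMap.const X t) ≤ K * |t|) ∧
    (∀ f ∈ T, ∀ g ∈ T, f + g ∈ T ∧ nm (f + g) ≤ nm f + nm g ∧ f * g ∈ T ∧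
      nm (f * g) ≤ nm f * nm g) ∧
    (∀ f ∈ T, (∀ x, |f x| ≤ nm f) ∧ ∀ m : Fin r → ℤ, ∃ g ∈ T, (∀ x, g x = f (el a m • x)) ∧
      nm g ≤ Real.exp (L * ‖m‖) * nm f) ∧
    (∀ f ∈ T, ∀ g ∈ T, ∀ m : Fin r → ℤ,
      |∫ x, f x * g (el a m • x) ∂μ - (∫ x, f x ∂μ) * ∫ x, g x ∂μ| ≤
        nm f * nm g * Real.exp (-c * ‖m‖)) ∧
    ∀ θ : C(X, ℝ), HasCompactSupport θ → ∀ ε : ℝ, 0 < ε →
      ∃ f ∈ T, HasCompactSupport f ∧ ∀ x, |θ x - f x| ≤ ε

end mixing

/-- Let `G` be a closed subgroup of `SL(n₀, ℝ) × ∏ SL(n v, ℚ_[q v])` (finitely many distinct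
primes `q v`) acting continuously with open orbit maps on a locally compact second countable
Hausdorff space `X` (for instance `X = G ⧸ Γ` with `Γ` a closed subgroup), let `a` be a homomorphism
of `ℤ ^ r` to `G` with diagonal image `A` of class `𝒜`, and let `μ` be an `A`-invariant probability
measure. If `μ` is polynomially mixing with exponents larger than one, of order two and `r ≥ 3`, or
of order four and `r ≥ 2`, or if `r ≥ 2` and `μ` is exponentially mixing of order two, then `μ` is
invariant under a nontrivial unipotent group normalized by `A` and expanded by an element of `A`, or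
`μ` is a point mass. -/
theorem result {ι : Type*} [Fintype ι] {n₀ : ℕ} {n q : ι → ℕ} [∀ v, Fact (q v).Prime]
    (hq : Function.Injective q)
    {G : Type*} [Group G] [TopologicalSpace G] [IsTopologicalGroup G]
    (κ : G →* SLPlaces n₀ n q) (hκ : IsClosedEmbedding κ)
    {X : Type*} [TopologicalSpace X] [LocallyCompactSpace X] [T2Space X]
    [SecondCountableTopology X] [MeasurableSpace X] [BorelSpace X]
    [MulAction G X] [ContinuousSMul G X] (hX : ∀ x : X, IsOpenMap fun g : G => g • x)
    {r : ℕ} (a : Multiplicative (Fin r → ℤ) →* G) (ha : IsClassA κ a.range)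
    (μ : Measure X) [IsProbabilityMeasure μ]
    (hμ : ∀ b ∈ a.range, μ.map (fun z => b • z) = μ)
    (hmix : (3 ≤ r ∧ PolynomiallyMixing a μ 2) ∨ (2 ≤ r ∧ PolynomiallyMixing a μ 4) ∨
      (2 ≤ r ∧ ExponentiallyMixing a μ)) :
    UnipotentInvariant κ a.range μ ∨ ∃ x : X, μ = Measure.dirac x := by
  have hadd : ∀ m m' : Fin r → ℤ, el a (m + m') = el a m * el a m' := by
    intro m m'
    show a (Multiplicative.ofAdd (m + m')) = _
    rw [ofAdd_add, map_mul]
    rfl
  have hA : ∀ g, g ∈ a.range ↔ ∃ m, el a m = g := by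
    intro g
    constructor
    · rintro ⟨m, rfl⟩
      exact ⟨Multiplicative.toAdd m, rfl⟩
    · rintro ⟨m, rfl⟩
      exact ⟨Multiplicative.ofAdd m, rfl⟩
  have hcls : ClsS (n₀ := n₀) (n := n) (q := q) κ (MonoidHom.id G) a.range :=
    { diag := fun b hb => ⟨ha.1.1 b hb, fun v => (ha.2 v).1 b hb⟩
      clsR := fun i k r s h b hb => ha.1.quad i k r s h b hb
      clsP := fun v i k r s h b hb => (ha.2 v).quad i k r s h b hb }
  rcases PoolMX.unip_or_dirac_samp (n₀ := n₀) (n := n) (q := q) hq κ hκ hX (el a) hadd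
    a.range hA hcls μ hμ hmix with key | h
  · refine Or.inl ?_
    rcases key with ⟨Y, h1, h2, h3, h4, h5⟩ | ⟨v, Y, h1, h2, h3, h4, h5⟩
    · refine Or.inl ⟨Y, h1, h2, h3, h4, fun x => ?_⟩
      obtain ⟨t, ht1, ht2, ht3⟩ := h5 x
      exact ⟨_, ht1, t, rfl, fun v => congrFun ht2 v, ht3⟩
    · refine Or.inr ⟨v, Y, h1, h2, h3, h4, fun x => ?_⟩
      obtain ⟨t, ht1, ht2, ht3, ht4⟩ := h5 x
      exact ⟨_, ht1, t, rfl, ht2, ht3, ht4⟩
  · exact Or.inr h

end Pool.Agent.Work.MP_67388f_an.Retired.MixingRigidity
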