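import Pool.Agent.Work.MP_67388f_an.TS.Count

set_option autoImplicit false

namespace Pool.Agent.Results.MP_67388f_an.SingularAlong

open MeasureTheory Filter Topology Matrix
open Pool.Agent.Work.MP_67388f_an

section places

variable {ι : Type*} (n₀ : ℕ) (n q : ι → ℕ) [∀ v, Fact (q v).Prime]

/-- The group `SL(n₀, ℝ) × ∏ SL(n v, ℚ_[q v])`. -/
def SLPlaces : Type _ :=
  SpecialLinearGroup (Fin n₀) ℝ × ((v : ι) → SpecialLinearGroup (Fin (n v)) ℚ_[q v])

/-- the product group structure -/
noncomputable instance : Group (SLPlaces n₀ n q) := Prod.instGroup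

/-- the product topology -/
noncomputable instance : TopologicalSpace (SLPlaces n₀ n q) := instTopologicalSpaceProd

variable {n₀ n q}

/-- the real component -/
def realPart (x : SLPlaces n₀ n q) : SpecialLinearGroup (Fin n₀) ℝ := x.1

/-- the component at the finite place `v` -/
def finPart (v : ι) (x : SLPlaces n₀ n q) : SpecialLinearGroup (Fin (n v)) ℚ_[q v] := x.2 v

end places

/-- `μ` is invariant and ergodic under the group `A`. -/
def IsErg {G X : Type*} [Group G] [MeasurableSpace X] [MulAction G X] (A : Subgroup G)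
    (μ : Measure X) : Prop :=
  (∀ a ∈ A, μ.map (fun z => a • z) = μ) ∧
  ∀ s : Set X, MeasurableSet s → (∀ a ∈ A, (fun z => a • z) ⁻¹' s =ᵐ[μ] s) →
    μ s = 0 ∨ μ sᶜ = 0

/-- Some nontrivial unipotent one-parameter group `exp (x Y)`, `x ∈ K`, is contained in `S`,
normalized by `ρ a` for all `a ∈ A`, and expanded by `ρ a` for some `a ∈ A`. -/
def HasUnipotent {G : Type*} [Group G] {n : ℕ} {K : Type*} [NormedField K] [CharZero K]
    (A : Subgroup G) (ρ : G → SpecialLinearGroup (Fin n) K)
    (S : SpecialLinearGroup (Fin n) K → Prop) : Prop :=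
  ∃ Y : Matrix (Fin n) (Fin n) K, Y ≠ 0 ∧ IsNilpotent Y ∧
    (∀ a ∈ A, ∃ c : K, (ρ a).1 * Y = c • (Y * (ρ a).1)) ∧
    (∃ a ∈ A, ∃ c : K, 1 < ‖c‖ ∧ (ρ a).1 * Y = c • (Y * (ρ a).1)) ∧
    ∀ x : K, ∃ u : SpecialLinearGroup (Fin n) K, u.1 = IsNilpotent.exp (x • Y) ∧ S u

section places

variable {ι : Type*} {n₀ : ℕ} {n q : ι → ℕ} [∀ v, Fact (q v).Prime]
  {L H : Type*} [Group L] [Group H]

/-- At every place the components of the elements of `A` are diagonal of class `𝒜`. -/
def IsClassA (κ : L →* SLPlaces n₀ n q) (A : Subgroup (L × H)) : Prop :=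
  DiagClassA A (fun a => realPart (κ a.1)) ∧ ∀ v, DiagClassA A (fun a => finPart v (κ a.1))

/-- `t ∈ L` preserves `μ`. -/
def Preserves (H : Type*) [Group H] {X : Type*} [MeasurableSpace X] [MulAction (L × H) X]
    (μ : Measure X) (t : L) : Prop :=
  μ.map (fun z => (t, (1 : H)) • z) = μ

/-- At the real place or at some finite place there is a nontrivial one-parameter unipotent group
in `L` which preserves `μ` and is normalized by `A` and expanded by an element of `A`. -/
def UnipotentInvariant {X : Type*} [MeasurableSpace X] [MulAction (L × H) X]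
    (κ : L →* SLPlaces n₀ n q) (A : Subgroup (L × H)) (μ : Measure X) : Prop :=
  HasUnipotent A (fun a => realPart (κ a.1)) (fun u => ∃ t : L, realPart (κ t) = u ∧
    (∀ v, finPart v (κ t) = 1) ∧ Preserves H μ t) ∨
  ∃ v, HasUnipotent A (fun a => finPart v (κ a.1)) (fun u => ∃ t : L, finPart v (κ t) = u ∧
    realPart (κ t) = 1 ∧ (∀ v', v' ≠ v → finPart v' (κ t) = 1) ∧ Preserves H μ t)

end places

/-- Let `L` be a closed subgroup of `SL(n₀, ℝ) × ∏ SL(n v, ℚ_[q v])` (finitely many distinct
primes `q v`), `H` any topological group, `L × H` acting continuously on a locally compact second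
countable Hausdorff space `X`, and `A` a subgroup of `L × H` whose elements are diagonal of class
`𝒜` at every place. Let `μ` be an `A`-invariant `A`-ergodic probability measure. Then:
(1) for every finite measure `ν` only countably many of the translates of `μ` by elements of `L` are
not singular to `ν`;
(2) for every continuous homomorphism `b : B → L` of a locally compact second countable group, the
subgroup of all `s ∈ B` with `b s` preserving `μ` is open, or `μ` is carried by a Borel set `E` which
every orbit of `b` meets in a null set of times;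
(3) if arbitrarily small elements of `L` preserve `μ` without commuting with `A`, then `μ` is
invariant under a nontrivial unipotent one-parameter group normalized by `A`. -/
theorem result {ι : Type*} [Fintype ι] {n₀ : ℕ} {n q : ι → ℕ} [∀ v, Fact (q v).Prime]
    (hq : Function.Injective q)
    {L H : Type*} [Group L] [TopologicalSpace L] [IsTopologicalGroup L]
    [Group H] [TopologicalSpace H] [IsTopologicalGroup H]
    (κ : L →* SLPlaces n₀ n q) (hκ : IsClosedEmbedding κ)
    {X : Type*} [TopologicalSpace X] [LocallyCompactSpace X] [T2Space X]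
    [SecondCountableTopology X] [MeasurableSpace X] [BorelSpace X]
    [MulAction (L × H) X] [ContinuousSMul (L × H) X]
    (A : Subgroup (L × H)) (hA : IsClassA κ A) (μ : Measure X) [IsProbabilityMeasure μ]
    (hμ : IsErg A μ)
    {B : Type*} [Group B] [TopologicalSpace B] [IsTopologicalGroup B] [LocallyCompactSpace B]
    [SecondCountableTopology B] [T2Space B] [MeasurableSpace B] [BorelSpace B]
    (lam : Measure B) [lam.IsHaarMeasure] (b : B →* L) (hb : Continuous b) :
    (∀ ν : Measure X, IsFiniteMeasure ν →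
      {m : Measure X | ∃ t : L, m = μ.map (fun z => (t, (1 : H)) • z) ∧ ¬ m ⟂ₘ ν}.Countable) ∧
    (IsOpen {s : B | Preserves H μ (b s)} ∨
      ∃ E : Set X, MeasurableSet E ∧ μ Eᶜ = 0 ∧
        ∀ x : X, lam {s : B | (b s, (1 : H)) • x ∈ E} = 0) ∧
    ((∃ᶠ t in 𝓝 (1 : L), Preserves H μ t ∧ ∃ a ∈ A, a.1 * t ≠ t * a.1) →
      UnipotentInvariant κ A μ) := by
  obtain ⟨hμ, herg⟩ := hμ
  obtain ⟨hR, hP⟩ := hA
  have hsc : SecondCountableTopology (SLPlaces n₀ n q) := sls_second
  have hscL : SecondCountableTopology L := hκ.isEmbedding.secondCountableTopology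
  have hfc : FirstCountableTopology L := inferInstance
  have hT : ∀ ν : Measure X, IsFiniteMeasure ν → ¬ μ ⟂ₘ ν → ∀ l : ℕ → L,
      Tendsto l atTop (𝓝 1) → TVto atTop (fun k => (l k, (1 : H))) ν →
      ∀ᶠ k in atTop, μ.map (fun z => (l k, (1 : H)) • z) = μ := by
    intro ν hν hns l hl htv
    exact tv_rigid_LH (n₀ := n₀) (n := n) (q := q) hq κ hκ A hR hP μ hμ herg ν hns l hl htv
  refine ⟨fun ν hν => ?_, ?_, fun hfr => ?_⟩
  · refine countable_translates (G := L × H) (MonoidHom.inl L H) μ ?_
      (continuous_id.prodMk continuous_const) ν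
    intro F hF hF0 l hl htv
    refine hT (μ.restrict F) inferInstance ?_ l hl htv
    rintro ⟨t, ht, h1, h2⟩
    apply hF0
    rw [Measure.restrict_apply ht.compl] at h2
    refine measure_mono_null (t := t ∪ (tᶜ ∩ F)) ?_ (measure_union_null h1 h2)
    intro x hx
    by_cases hxt : x ∈ t
    · exact Or.inl hxt
    · exact Or.inr ⟨hxt, hx⟩
  · have hbj : Continuous ((MonoidHom.inl L H).comp b) := hb.prodMk continuous_const
    have hT' : ∀ ν : Measure X, IsFiniteMeasure ν → ¬ μ ⟂ₘ ν → ∀ s : ℕ → B,
        Tendsto s atTop (𝓝 1) →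
        TVto atTop (fun k => ((MonoidHom.inl L H).comp b) (s k)) ν →
        ∀ᶠ k in atTop, μ.map (fun z => ((MonoidHom.inl L H).comp b) (s k) • z) = μ := by
      intro ν hν hns s hs htv
      have h1 : Tendsto (fun k => b (s k)) atTop (𝓝 1) := by
        have := (hb.tendsto 1).comp hs
        rwa [map_one] at this
      exact hT ν hν hns (fun k => b (s k)) h1 htv
    exact sing_or_open lam ((MonoidHom.inl L H).comp b) hbj μ hT'
  · obtain ⟨l, hl, hfl⟩ := exists_seq_forall_of_frequently hfr
    have hTV : TVto atTop (fun k => (l k, (1 : H))) μ := by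
      intro e he
      refine Eventually.of_forall fun k E hE => ?_
      have hk : μ.map (fun z => (l k, (1 : H)) • z) = μ := (hfl k).1
      have hm : Measurable (fun z : X => (l k, (1 : H)) • z) :=
        (continuous_const_smul (l k, (1 : H))).measurable
      have h2 : μ.real ((fun z : X => (l k, (1 : H)) • z) ⁻¹' E) = μ.real E := by
        conv_rhs => rw [← hk]
        rw [measureReal_def, measureReal_def, Measure.map_apply hm hE]
      rw [h2]
      linarith
    have hns : ¬ μ ⟂ₘ μ := by
      rintro ⟨t, ht, e1, e2⟩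
      have h3 : μ Set.univ ≤ μ t + μ tᶜ := by
        rw [← Set.union_compl_self t]
        exact measure_union_le _ _
      rw [e1, e2, measure_univ, add_zero] at h3
      exact absurd h3 (by norm_num)
    have key := unip_of_seq (G := L × H) (n₀ := n₀) (n := n) (q := q) hq κ
      (MonoidHom.inl L H) (MonoidHom.fst L H)
      hκ (continuous_id.prodMk continuous_const)
      (by
        intro g u
        apply Prod.ext
        · rfl
        · show g.2 * 1 * g.2⁻¹ = 1
          rw [mul_one, mul_inv_cancel])
      A μ hμ herg hR.1 (fun a ha v => (hP v).1 a ha)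
      (fun i k r s h a ha => hR.quad i k r s h a ha)
      (fun v i k r s h a ha => (hP v).quad i k r s h a ha) μ hns l hl hTV
      (Eventually.frequently (Eventually.of_forall fun k => by
        obtain ⟨a, ha, hne⟩ := (hfl k).2
        refine ⟨a, ha, fun heq => hne ?_⟩
        exact congrArg Prod.fst heq))
    rcases key with ⟨Y, h1, h2, h3, h4, h5⟩ | ⟨v, Y, h1, h2, h3, h4, h5⟩
    · refine Or.inl ⟨Y, h1, h2, h3, h4, fun x => ?_⟩
      obtain ⟨t, ht1, ht2, ht3⟩ := h5 x
      exact ⟨_, ht1, t, rfl, fun v => congrFun ht2 v, ht3⟩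
    · refine Or.inr ⟨v, Y, h1, h2, h3, h4, fun x => ?_⟩
      obtain ⟨t, ht1, ht2, ht3, ht4⟩ := h5 x
      exact ⟨_, ht1, t, rfl, ht2, ht3, ht4⟩

end Pool.Agent.Results.MP_67388f_an.SingularAlong
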