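import Pool.Agent.Work.MP_67388f_an.Uni

set_option autoImplicit false

namespace Pool.Agent.Results.MP_67388f_an.UnipotentTranslates

open Pool.Agent.Work.MP_67388f_an MeasureTheory Set

/-- Let a topological group `G` act continuously on a locally compact second countable Hausdorff
space `X` (for instance `G / Γ`), let `A` be a subgroup of `G` and `u : ℝ → G` a one-parameter
subgroup normalized by `A`, on which `A` acts by scalings `a u(x) a⁻¹ = u(l x)` whose factors `l`
are dense in `(0, ∞)`. Let `μ` be an `A`-invariant and `A`-ergodic probability measure and `ν` any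
finite `A`-invariant measure. If for a single `x₀ ≠ 0` the translate `u(x₀) μ` is not singular to
`ν`, then `μ` is invariant under the whole group `u(ℝ)`. -/
theorem result {G : Type*} [Group G] [TopologicalSpace G] [IsTopologicalGroup G]
    {X : Type*} [TopologicalSpace X] [LocallyCompactSpace X] [T2Space X]
    [SecondCountableTopology X] [MeasurableSpace X] [BorelSpace X]
    [MulAction G X] [ContinuousSMul G X]
    (A : Subgroup G) (μ ν : Measure X) [IsProbabilityMeasure μ] [IsFiniteMeasure ν]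
    (hμ : ∀ a ∈ A, μ.map (fun z => a • z) = μ) (hν : ∀ a ∈ A, ν.map (fun z => a • z) = ν)
    (herg : ∀ s : Set X, MeasurableSet s → (∀ a ∈ A, (fun z => a • z) ⁻¹' s =ᵐ[μ] s) →
      μ s = 0 ∨ μ sᶜ = 0)
    (u : ℝ → G) (hu : Continuous u) (hadd : ∀ x y, u (x + y) = u x * u y)
    (hau : ∀ a ∈ A, ∃ l : ℝ, l ≠ 0 ∧ ∀ x, a * u x = u (l * x) * a)
    (hdense : ∀ l₀ : ℝ, 0 < l₀ → ∀ e : ℝ, 0 < e →
      ∃ a ∈ A, ∃ l : ℝ, |l - l₀| < e ∧ ∀ x, a * u x = u (l * x) * a)
    (x₀ : ℝ) (hx₀ : x₀ ≠ 0) (hns : ¬ (μ.map (fun z => u x₀ • z)) ⟂ₘ ν) :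
    ∀ x : ℝ, μ.map (fun z => u x • z) = μ :=
  uni_main A μ ν hμ hν herg u hu hadd hau hdense x₀ hx₀ hns

end Pool.Agent.Results.MP_67388f_an.UnipotentTranslates
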